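import Mathlib
import Pool.Agent.H771R4.UH.FinalD
import Pool.Agent.H771R4.UH.CB

set_option autoImplicit false

/-! # Primes not dividing the central binomial coefficient: power-saving exceptional set

For every `ε > 0` there is `c > 0` such that, for all large `N`, all but at most `N ^ (1 - c)` of the
integers `n ≤ N` satisfy `f(n) ≤ ε log log n`, where `f(n)` is the sum of `1 / p` over the primes
`p < n` that do not divide the central binomial coefficient. -/

namespace Pool.Agent.Results.MP_6c02f2_nt.PowerSaving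

open Finset Classical Filter Topology Pool.Agent.H771R4.UH

lemma f_le (d n : ℕ) :
    ∑ p ∈ (Finset.range n).filter (fun p => p.Prime ∧ ¬ p ∣ Nat.centralBinom n), (1 : ℝ) / (p : ℝ) ≤
      1 / 2 + FD (st d) n 2 n +
        (2 / 3 : ℝ) ^ d * ∑ p ∈ (Ioc 2 n).filter Nat.Prime, (1 : ℝ) / (p : ℝ) := by
  have h1 : (Finset.range n).filter (fun p => p.Prime ∧ ¬ p ∣ Nat.centralBinom n) ⊆
      {2} ∪ ((Ioc 2 n).filter Nat.Prime).filter (fun p => cond d p n) := by
    intro p hp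
    rw [mem_filter, mem_range] at hp
    obtain ⟨a1, a2, a3⟩ := hp
    rw [mem_union, mem_singleton, mem_filter, mem_filter, mem_Ioc]
    rcases eq_or_ne p 2 with h | h
    · left; exact h
    · right
      have := a2.two_le
      refine ⟨⟨⟨by omega, by omega⟩, a2⟩, cond_of_not_dvd a2 ?_⟩
      rwa [Nat.centralBinom_eq_two_mul_choose] at a3
  have h2 := sum_le_sum_of_subset_of_nonneg (f := fun p : ℕ => (1 : ℝ) / (p : ℝ)) h1
    (fun p _ _ => by positivity)
  have h3 : ∑ p ∈ ({2} ∪ ((Ioc 2 n).filter Nat.Prime).filter (fun p => cond d p n) : Finset ℕ),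
      (1 : ℝ) / (p : ℝ) ≤ 1 / 2 + ∑ p ∈ ((Ioc 2 n).filter Nat.Prime).filter
        (fun p => cond d p n), (1 : ℝ) / (p : ℝ) := by
    have h4 := Finset.sum_union_inter (s₁ := ({2} : Finset ℕ))
      (s₂ := ((Ioc 2 n).filter Nat.Prime).filter (fun p => cond d p n))
      (f := fun p : ℕ => (1 : ℝ) / (p : ℝ))
    have h5 : 0 ≤ ∑ p ∈ ({2} ∩ ((Ioc 2 n).filter Nat.Prime).filter (fun p => cond d p n) :
        Finset ℕ), (1 : ℝ) / (p : ℝ) := sum_nonneg fun p _ => by positivity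
    rw [sum_singleton] at h4
    push_cast at h4
    linarith
  refine h2.trans (h3.trans ?_)
  rw [add_assoc]
  apply add_le_add_right
  unfold FD
  rw [mul_sum, ← sum_add_distrib, sum_filter]
  apply sum_le_sum
  intro p hp
  rw [mem_filter, mem_Ioc] at hp
  have hp3 : (3 : ℝ) ≤ p := by exact_mod_cast hp.1.1
  have hp0 : (0 : ℝ) < p := by linarith
  have h6 : (cn d p : ℝ) / (p : ℝ) ^ d ≤ (2 / 3 : ℝ) ^ d := by
    rw [div_le_iff₀ (by positivity), ← mul_pow]
    have h7 : (cn d p : ℝ) ≤ (((p + 1) / 2 : ℕ) : ℝ) ^ d := by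
      exact_mod_cast cn_le hp.2.pos d
    refine h7.trans (pow_le_pow_left₀ (Nat.cast_nonneg _) ?_ d)
    have h8 : (((p + 1) / 2 : ℕ) : ℝ) * 2 ≤ p + 1 := by
      exact_mod_cast Nat.div_mul_le_self (p + 1) 2
    linarith
  have h9 : (st d).X p n = (1 / (p : ℝ)) *
      ((if Pool.Agent.H771R4.UH.cond d p n then (1 : ℝ) else 0) -
      (cn d p : ℝ) / (p : ℝ) ^ d) := by
    first
      | rfl
      | (simp only [st]; congr!)
  rw [h9]
  have h10 : (1 / (p : ℝ)) * ((cn d p : ℝ) / (p : ℝ) ^ d) ≤ (1 / (p : ℝ)) * (2 / 3 : ℝ) ^ d :=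
    mul_le_mul_of_nonneg_left h6 (by positivity)
  split_ifs <;> linarith

theorem result (ε : ℝ) (hε : 0 < ε) : ∃ c : ℝ, 0 < c ∧ ∃ N₀ : ℕ, ∀ N : ℕ, N₀ ≤ N →
    (((Finset.Icc 1 N).filter (fun n : ℕ => ε * Real.log (Real.log n) <
      ∑ p ∈ (Finset.range n).filter (fun p => p.Prime ∧ ¬ p ∣ Nat.centralBinom n),
        (1 : ℝ) / (p : ℝ))).card : ℝ) ≤ (N : ℝ) ^ (1 - c) := by
  obtain ⟨d, hd⟩ := exists_pow_lt_of_lt_one (show (0 : ℝ) < min (ε / 2) 1 by positivity)
    (show (2 / 3 : ℝ) < 1 by norm_num)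
  have hd1 : (2 / 3 : ℝ) ^ d ≤ ε / 2 := hd.le.trans (min_le_left _ _)
  have hd2 : (2 / 3 : ℝ) ^ d ≤ 1 := hd.le.trans (min_le_right _ _)
  obtain ⟨C₀, N₁, hN₁⟩ := finalD (st d)
  obtain ⟨C, hC, hM⟩ := Pool.Agent.Helper923.HMertens.mertens_ratio
  have hl2 : (0 : ℝ) < Real.log 2 := by have := Real.log_two_gt_d9; linarith
  set C' : ℝ := |Real.log (Real.log 2)| + C / Real.log 2 with hC'
  have hC'0 : 0 ≤ C' := by positivity
  have hlog : Tendsto (fun N : ℕ => Real.log (Real.log (N : ℝ))) atTop atTop :=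
    Real.tendsto_log_atTop.comp (Real.tendsto_log_atTop.comp tendsto_natCast_atTop_atTop)
  have hev : ∀ᶠ y : ℝ in atTop, Real.log y + C₀ + 1 / 2 + C' ≤ ε / 2 * y ∧ 0 ≤ y := by
    have h1 := Real.isLittleO_log_id_atTop.def (show (0 : ℝ) < ε / 4 by positivity)
    filter_upwards [h1, eventually_ge_atTop ((C₀ + 1 / 2 + C') / (ε / 4)),
      eventually_ge_atTop 1] with y h1 h2 h3
    rw [Real.norm_eq_abs, abs_of_nonneg (Real.log_nonneg h3), id, Real.norm_eq_abs,
      abs_of_pos (by linarith)] at h1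
    rw [div_le_iff₀ (by positivity)] at h2
    exact ⟨by linarith, by linarith⟩
  obtain ⟨n₀, hn₀⟩ := eventually_atTop.1 ((hlog.eventually hev).and (eventually_ge_atTop 2))
  set a : ℝ := 1 / (4 * ((d : ℝ) + 1)) with ha
  have ha0 : 0 < a := by positivity
  have ha1 : a ≤ 1 / 4 := by
    rw [ha]
    apply one_div_le_one_div_of_le (by norm_num)
    linarith [Nat.cast_nonneg (α := ℝ) d]
  have hfin : ∀ᶠ N : ℕ in atTop, (n₀ : ℝ) + 1 ≤ (N : ℝ) ^ (a / 2) :=
    ((tendsto_rpow_atTop (by positivity)).comp tendsto_natCast_atTop_atTop).eventually_ge_atTop _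
  obtain ⟨N₂, hN₂⟩ := eventually_atTop.1 (hfin.and (eventually_ge_atTop 1))
  refine ⟨a / 2, by positivity, max N₁ N₂, fun N hN => ?_⟩
  have hA := hN₁ N ((le_max_left _ _).trans hN)
  obtain ⟨hB, hB1⟩ := hN₂ N ((le_max_right _ _).trans hN)
  have hN1 : (1 : ℝ) ≤ N := by exact_mod_cast hB1
  have hN0 : (0 : ℝ) < N := by linarith
  have hincl : (Finset.Icc 1 N).filter (fun n : ℕ => ε * Real.log (Real.log n) <
      ∑ p ∈ (Finset.range n).filter (fun p => p.Prime ∧ ¬ p ∣ Nat.centralBinom n),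
        (1 : ℝ) / (p : ℝ)) ⊆ range n₀ ∪
      (Icc 1 N).filter (fun n : ℕ => Real.log (Real.log (Real.log n)) + C₀ <
        |FD (st d) n 2 n|) := by
    intro n hn
    rw [mem_filter] at hn
    rw [mem_union, mem_range, mem_filter]
    by_contra hcon
    push Not at hcon
    obtain ⟨h1, h2⟩ := hcon
    obtain ⟨⟨h3, h3'⟩, h4⟩ := hn₀ n h1
    have h5 := h2 hn.1
    have h6 := (le_abs_self _).trans h5
    have h7 := f_le d n
    have h8 := hM 2 n le_rfl h4
    have hln : 0 < Real.log n := Real.log_pos (by exact_mod_cast (by omega : 1 < n))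
    rw [Nat.cast_ofNat, Real.log_div hln.ne' hl2.ne', abs_le] at h8
    have h9 := neg_abs_le (Real.log (Real.log 2))
    have h10 : ∑ p ∈ (Ioc 2 n).filter Nat.Prime, (1 : ℝ) / (p : ℝ) ≤
        Real.log (Real.log n) + C' := by linarith [h8.2]
    have h11 : (2 / 3 : ℝ) ^ d * ∑ p ∈ (Ioc 2 n).filter Nat.Prime, (1 : ℝ) / (p : ℝ) ≤
        ε / 2 * Real.log (Real.log n) + C' := by
      calc (2 / 3 : ℝ) ^ d * ∑ p ∈ (Ioc 2 n).filter Nat.Prime, (1 : ℝ) / (p : ℝ) ≤
          (2 / 3 : ℝ) ^ d * (Real.log (Real.log n) + C') :=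
            mul_le_mul_of_nonneg_left h10 (by positivity)
        _ = (2 / 3 : ℝ) ^ d * Real.log (Real.log n) + (2 / 3 : ℝ) ^ d * C' := by ring
        _ ≤ ε / 2 * Real.log (Real.log n) + 1 * C' :=
            add_le_add (mul_le_mul_of_nonneg_right hd1 h3') (mul_le_mul_of_nonneg_right hd2 hC'0)
        _ = _ := by ring
    linarith [hn.2]
  have hcard := (card_le_card hincl).trans (card_union_le _ _)
  have hc1 : (((Finset.Icc 1 N).filter (fun n : ℕ => ε * Real.log (Real.log n) <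
      ∑ p ∈ (Finset.range n).filter (fun p => p.Prime ∧ ¬ p ∣ Nat.centralBinom n),
        (1 : ℝ) / (p : ℝ))).card : ℝ) ≤ n₀ + (N : ℝ) ^ (1 - a) := by
    have h1 : (((Finset.Icc 1 N).filter (fun n : ℕ => ε * Real.log (Real.log n) <
      ∑ p ∈ (Finset.range n).filter (fun p => p.Prime ∧ ¬ p ∣ Nat.centralBinom n),
        (1 : ℝ) / (p : ℝ))).card : ℝ) ≤ ((range n₀).card : ℝ) +
      ((Icc 1 N).filter (fun n : ℕ => Real.log (Real.log (Real.log n)) + C₀ <
        |FD (st d) n 2 n|)).card := by exact_mod_cast hcard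
    rw [card_range] at h1
    refine h1.trans (add_le_add_right ?_ _)
    refine le_trans (le_of_eq ?_) hA
    congr!
  have hc2 : (1 : ℝ) ≤ (N : ℝ) ^ (1 - a) := Real.one_le_rpow hN1 (by linarith)
  calc _ ≤ n₀ + (N : ℝ) ^ (1 - a) := hc1
    _ ≤ n₀ * (N : ℝ) ^ (1 - a) + (N : ℝ) ^ (1 - a) := by
      have : (0 : ℝ) ≤ n₀ := Nat.cast_nonneg _
      nlinarith
    _ = (n₀ + 1) * (N : ℝ) ^ (1 - a) := by ring
    _ ≤ (N : ℝ) ^ (a / 2) * (N : ℝ) ^ (1 - a) := by gcongr
    _ = (N : ℝ) ^ (1 - a / 2) := by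
      rw [← Real.rpow_add hN0]; congr 1; ring

end Pool.Agent.Results.MP_6c02f2_nt.PowerSaving
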